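import Pool.Agent.W2helper66.XP.Stm

/-! # Project XP, piece EC: an edge colouring from involutions. -/

set_option autoImplicit false

namespace Pool.Agent.W2helper71.XP

open Pool.Agent.W2helper66.XP

theorem ec : EC := by
  intro V C _ G f hinv hinj hsur
  classical
  have hex : ∀ e ∈ G.edgeSet, ∃ c : C, ∀ v w, e = s(v, w) → f c v = w := by
    intro e
    induction e using Sym2.ind with
    | _ v w =>
      intro he
      obtain ⟨c, hc⟩ := hsur v w he
      refine ⟨c, fun v' w' h => ?_⟩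
      rcases Sym2.eq_iff.1 h with ⟨rfl, rfl⟩ | ⟨rfl, rfl⟩
      · exact hc
      · rw [← hc, hinv]
  choose! col hcol using hex
  refine ⟨col, fun e he e' he' hne hv heq => hne ?_⟩
  obtain ⟨v, hv1, hv2⟩ := hv
  obtain ⟨w, rfl⟩ := Sym2.mem_iff_exists.1 hv1
  obtain ⟨w', rfl⟩ := Sym2.mem_iff_exists.1 hv2
  have h1 := hcol _ he v w rfl
  have h2 := hcol _ he' v w' rfl
  rw [← heq, h1] at h2
  rw [h2]

end Pool.Agent.W2helper71.XP
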